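import Pool.Agent.Helper68.QC.St1

/-!
# Project QD (MP_d112a4_gt), part M: module EQS
-/

set_option autoImplicit false

open MeasureTheory Set Filter Topology Complex
open scoped ContDiff ComplexConjugate ENNReal

namespace Pool.Agent.Helper28.QC

open Pool.Agent.Helper68.QC

private theorem eqs_symm (hQIN : StQIN) {k : ℝ} (hk : k < 1) {w : ℂ ≃ₜ ℂ} (hw : QS k w) :
    QS k w.symm := by
  obtain ⟨W, h1, h2⟩ := hQIN k hk w hw
  have : W = w := Homeomorph.ext h1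
  rwa [this] at h2

private theorem eqs_main (hMOD : StMOD) (hGRW : StGRW) {k : ℝ} (hk0 : 0 ≤ k) (hk : k < 1)
    (R : ℝ) (ε : ℝ) (hε : 0 < ε) : ∃ δ > 0, ∀ w : ℂ ≃ₜ ℂ, QS k w → w 0 = 0 → w 1 = 1 →
      ∀ p q, ‖p‖ ≤ R → ‖q‖ ≤ R → ‖p - q‖ ≤ δ → ‖w p - w q‖ ≤ ε := by
  obtain ⟨M, hM⟩ := hGRW k hk0 hk (R + 1)
  set Vc : ℝ := (volume (Metric.closedBall (0 : ℂ) M)).toReal with hVc
  set C : ℝ := 2 * Real.pi * ((1 + k) / (1 - k)) * Vc with hC
  have hK : 0 ≤ 2 * Real.pi * ((1 + k) / (1 - k)) := by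
    have : 0 < 1 - k := by linarith
    positivity
  have hC0 : 0 ≤ C := mul_nonneg hK ENNReal.toReal_nonneg
  set T : ℝ := C / ε ^ 2 + 1 with hT
  have hT0 : 0 < T := by positivity
  refine ⟨Real.exp (-T), Real.exp_pos _, fun w hw h0 h1 p q hp hq hpq => ?_⟩
  have hlt : Real.exp (-T) < 1 := by
    rw [Real.exp_lt_one_iff]
    linarith
  have key := hMOD k hk0 hk w hw p (Real.exp (-T)) 1 (Real.exp_pos _) hlt p
    (Metric.mem_closedBall_self (Real.exp_pos _).le) q (by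
      rw [Metric.mem_closedBall, dist_eq_norm, norm_sub_rev]
      exact hpq)
  have hlog : Real.log (1 / Real.exp (-T)) = T := by
    rw [one_div, ← Real.exp_neg, neg_neg, Real.log_exp]
  rw [hlog] at key
  have hsub : (w '' Metric.ball p 1) ⊆ Metric.closedBall (0 : ℂ) M := by
    rintro _ ⟨z, hz, rfl⟩
    rw [mem_closedBall_zero_iff]
    apply hM w hw h0 h1
    rw [Metric.mem_ball, dist_eq_norm] at hz
    have := norm_add_le (z - p) p
    rw [sub_add_cancel] at this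
    linarith
  have hvol : (volume (w '' Metric.ball p 1)).toReal ≤ Vc := by
    apply ENNReal.toReal_mono
    · exact measure_closedBall_lt_top.ne
    · exact measure_mono hsub
  have h2 : ‖w p - w q‖ ^ 2 * T ≤ C := key.trans (mul_le_mul_of_nonneg_left hvol hK)
  have h3 : ε ^ 2 * T = C + ε ^ 2 := by
    rw [hT]
    field_simp
  have h4 : ‖w p - w q‖ ^ 2 * T ≤ ε ^ 2 * T := by
    rw [h3]
    have := sq_nonneg ε
    linarith
  have h5 : ‖w p - w q‖ ^ 2 ≤ ε ^ 2 := le_of_mul_le_mul_right h4 hT0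
  exact le_of_sq_le_sq h5 hε.le

theorem pEQS (hQIN : StQIN) (hMOD : StMOD) (hGRW : StGRW) : Pool.Agent.Helper68.QC.StEQS := by
  intro k hk0 hk R
  refine ⟨?_, fun ε hε => ?_⟩
  · obtain ⟨M, hM⟩ := hGRW k hk0 hk R
    refine ⟨M, fun w hw h0 h1 z hz => ⟨hM w hw h0 h1 z hz, ?_⟩⟩
    refine hM w.symm (eqs_symm hQIN hk hw) ?_ ?_ z hz
    · rw [Homeomorph.symm_apply_eq]
      exact h0.symm
    · rw [Homeomorph.symm_apply_eq]
      exact h1.symm
  · obtain ⟨δ, hδ, hd⟩ := eqs_main hMOD hGRW hk0 hk R ε hε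
    refine ⟨δ, hδ, fun w hw h0 h1 p q hp hq hpq => ⟨hd w hw h0 h1 p q hp hq hpq, ?_⟩⟩
    refine hd w.symm (eqs_symm hQIN hk hw) ?_ ?_ p q hp hq hpq
    · rw [Homeomorph.symm_apply_eq]
      exact h0.symm
    · rw [Homeomorph.symm_apply_eq]
      exact h1.symm

end Pool.Agent.Helper28.QC
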