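import Pool.Agent.Helper69.QC.St

set_option autoImplicit false

open Complex MeasureTheory Set Filter Topology Metric
open scoped Real ComplexConjugate

namespace Pool.Agent.Helper28.QC

open Pool.Agent.Helper69.QC

private theorem cnc_max (x : ℤ × ℤ) :
    max |(x.1 : ℝ)| |(x.2 : ℝ)| = ((max x.1.natAbs x.2.natAbs : ℕ) : ℝ) := by
  push_cast
  rw [Nat.cast_natAbs, Nat.cast_natAbs, Int.cast_abs, Int.cast_abs]

theorem cCNC : St_CNC := by
  intro N
  induction N with
  | zero =>
    apply le_of_eq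
    rw [Finset.sum_eq_zero]
    · simp
    · intro x hx
      rw [Finset.mem_filter, Finset.mem_product, Finset.mem_Icc, Finset.mem_Icc] at hx
      exfalso
      apply hx.2
      ext
      · have := hx.1.1
        simp only [Nat.cast_zero, neg_zero] at this
        exact le_antisymm this.2 this.1
      · have := hx.1.2
        simp only [Nat.cast_zero, neg_zero] at this
        exact le_antisymm this.2 this.1
  | succ N ih =>
    have hT : (Finset.Icc (-((N + 1 : ℕ) : ℤ)) (N + 1 : ℕ) ×ˢ
        Finset.Icc (-((N + 1 : ℕ) : ℤ)) (N + 1 : ℕ)).filter (fun x => x ≠ (0, 0)) =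
        (Finset.Icc (-(N : ℤ)) N ×ˢ Finset.Icc (-(N : ℤ)) N).filter (fun x => x ≠ (0, 0)) ∪
          (Finset.box (N + 1) : Finset (ℤ × ℤ)) := by
      ext ⟨p, q⟩
      rw [Finset.mem_union, Finset.mem_filter, Finset.mem_filter, Int.mem_box,
        Finset.mem_product, Finset.mem_product, Finset.mem_Icc, Finset.mem_Icc, Finset.mem_Icc,
        Finset.mem_Icc, Ne, Prod.mk.injEq]
      push_cast
      constructor
      · rintro ⟨⟨⟨h1, h2⟩, h3, h4⟩, h5⟩
        by_cases h : max p.natAbs q.natAbs = N + 1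
        · exact Or.inr h
        · left
          refine ⟨?_, h5⟩
          omega
      · rintro (⟨⟨⟨h1, h2⟩, h3, h4⟩, h5⟩ | h)
        · refine ⟨?_, h5⟩
          omega
        · omega
    have hdis : Disjoint
        ((Finset.Icc (-(N : ℤ)) N ×ˢ Finset.Icc (-(N : ℤ)) N).filter (fun x => x ≠ (0, 0)))
        (Finset.box (N + 1) : Finset (ℤ × ℤ)) := by
      rw [Finset.disjoint_left]
      rintro ⟨p, q⟩ h1 h2
      rw [Int.mem_box] at h2
      rw [Finset.mem_filter, Finset.mem_product, Finset.mem_Icc, Finset.mem_Icc] at h1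
      obtain ⟨⟨⟨h3, h4⟩, h5, h6⟩, _⟩ := h1
      simp only at h2 h3 h4 h5 h6
      omega
    rw [hT, Finset.sum_union hdis]
    have hbox : ∑ x ∈ (Finset.box (N + 1) : Finset (ℤ × ℤ)),
        (1 : ℝ) / max |(x.1 : ℝ)| |(x.2 : ℝ)| = 8 := by
      have h1 : ∀ x ∈ (Finset.box (N + 1) : Finset (ℤ × ℤ)),
          (1 : ℝ) / max |(x.1 : ℝ)| |(x.2 : ℝ)| = 1 / ((N : ℝ) + 1) := by
        intro x hx
        rw [Int.mem_box] at hx
        rw [cnc_max, hx]
        push_cast
        rfl
      rw [Finset.sum_congr rfl h1, Finset.sum_const, Int.card_box (Nat.succ_ne_zero N)]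
      rw [nsmul_eq_mul]
      push_cast
      have : ((N : ℝ) + 1) ≠ 0 := by positivity
      field_simp
    rw [hbox]
    push_cast
    linarith

end Pool.Agent.Helper28.QC
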